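import Mathlib
import Pool.Agent.H359R3.MX13

/-!
# MP_7561b1_an, Q2 (positive answer)

If `T` is a multiply mixing automorphism of a nonatomic standard probability space, then the
generic extension `T_α` of `T` is multiply mixing.
-/

set_option linter.unusedSectionVars false

open MeasureTheory Set Filter Topology
open scoped ENNReal symmDiff

namespace Pool.Agent.Results.MP_7561b1_an.GenericMultipleMixing

/-- Invertible bimeasurable `m`-preserving maps of `Z` onto itself (representatives). -/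
def PreAut {Z : Type*} [MeasurableSpace Z] (m : Measure Z) : Type _ :=
  {S : Z ≃ᵐ Z // MeasurePreserving S m m}

/-- Multiple mixing of a map `f` of `(Z, m)`: for all `k ≥ 2` and measurable `A_0, …, A_k`,
`m(A_0 ∩ f^{-n_1} A_1 ∩ ⋯ ∩ f^{-n_k} A_k) → m(A_0) ⋯ m(A_k)` as `n_1 → ∞` and
`n_{i+1} - n_i → ∞` (here `n_0 = 0`). -/
def MultMix {Z : Type*} [MeasurableSpace Z] (m : Measure Z) (f : Z → Z) : Prop :=
  ∀ k : ℕ, 2 ≤ k → ∀ A : Fin (k + 1) → Set Z, (∀ j, MeasurableSet (A j)) → ∀ ε : ℝ, 0 < ε →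
    ∃ M : ℕ, ∀ n : Fin (k + 1) → ℕ, n 0 = 0 → (∀ i : Fin k, n i.castSucc + M ≤ n i.succ) →
      |m.real (⋂ j, (f^[n j]) ⁻¹' A j) - ∏ j, m.real (A j)| < ε

section

variable {X Y : Type*} [MeasurableSpace X] [MeasurableSpace Y]

/-- Measurable maps `α` from `X` to the automorphisms of `(Y, ν)` (representatives of cocycles):
`(x, y) ↦ α(x)(y)` is measurable. -/
def PreCoc (X : Type*) [MeasurableSpace X] (ν : Measure Y) : Type _ :=
  {α : X → PreAut ν // Measurable (fun z : X × Y => (α z.1).1 z.2)}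

/-- Equality modulo null sets. -/
def aeEq (μ : Measure X) (ν : Measure Y) : Setoid (PreCoc X ν) where
  r := fun α β => ∀ᵐ x ∂μ, ∀ᵐ y ∂ν, (α.1 x).1 y = (β.1 x).1 y
  iseqv :=
    { refl := fun α => Eventually.of_forall (fun _ => Eventually.of_forall (fun _ => rfl))
      symm := fun {α β} h => h.mono (fun _ hx => hx.mono (fun _ hy => hy.symm))
      trans := fun {α β γ} h h' => by
        filter_upwards [h, h'] with x h1 h2
        filter_upwards [h1, h2] with y h3 h4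
        exact h3.trans h4 }

/-- The cocycles `X → Aut(Y, ν)` modulo null sets. -/
def Coc (μ : Measure X) (ν : Measure Y) : Type _ := Quotient (aeEq μ ν)

/-- The class of a representative. -/
def cls (μ : Measure X) {ν : Measure Y} (α : PreCoc X ν) : Coc μ ν := Quotient.mk (aeEq μ ν) α

/-- The set of `x` with `ν(α'(x)D Δ α(x)D) ≥ ε`. -/
def far {ν : Measure Y} (α α' : PreCoc X ν) (D : Set Y) (ε : ℝ) : Set X :=
  {x | ε ≤ ν.real (((α'.1 x).1 '' D) ∆ ((α.1 x).1 '' D))}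

/-- The topology of convergence in `μ`-measure, `Aut(Y, ν)` carrying the weak topology: a basis of
neighbourhoods of `α` is given by the sets of all `α'` with `μ{x : ν(α'(x)D Δ α(x)D) ≥ ε} < ε` for
all `D` in `J`, where `J` is a finite family of measurable sets and `ε > 0`. -/
instance inMeasure (μ : Measure X) [IsProbabilityMeasure μ] (ν : Measure Y) : TopologicalSpace (Coc μ ν) where
  IsOpen := fun O => ∀ α : PreCoc X ν, cls μ α ∈ O → ∃ J : Finset (Set Y), (∀ D ∈ J, MeasurableSet D) ∧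
    ∃ ε : ℝ, 0 < ε ∧ ∀ α' : PreCoc X ν, (∀ D ∈ J, μ.real (far α α' D ε) < ε) → cls μ α' ∈ O
  isOpen_univ := fun α _ => ⟨∅, by simp, 1, one_pos, fun _ _ => mem_univ _⟩
  isOpen_inter := by
    classical
    intro U V hU hV α hα
    obtain ⟨J1, hJ1, ε1, hε1, h1⟩ := hU α hα.1
    obtain ⟨J2, hJ2, ε2, hε2, h2⟩ := hV α hα.2
    refine ⟨J1 ∪ J2, fun A hA => ?_, min ε1 ε2, lt_min hε1 hε2, fun α' hcl => ⟨h1 α' (fun D hD => ?_), h2 α' (fun D hD => ?_)⟩⟩
    · rcases Finset.mem_union.1 hA with h | h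
      · exact hJ1 A h
      · exact hJ2 A h
    · refine lt_of_le_of_lt (measureReal_mono (fun x hx => ?_) (measure_ne_top _ _))
        (lt_of_lt_of_le (hcl D (Finset.mem_union_left _ hD)) (min_le_left _ _))
      exact le_trans (min_le_left ε1 ε2) (show ε1 ≤ ν.real (((α'.1 x).1 '' D) ∆ ((α.1 x).1 '' D)) from hx)
    · refine lt_of_le_of_lt (measureReal_mono (fun x hx => ?_) (measure_ne_top _ _))
        (lt_of_lt_of_le (hcl D (Finset.mem_union_right _ hD)) (min_le_right _ _))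
      exact le_trans (min_le_right ε1 ε2) (show ε2 ≤ ν.real (((α'.1 x).1 '' D) ∆ ((α.1 x).1 '' D)) from hx)
  isOpen_sUnion := by
    intro W hW α hα
    obtain ⟨U, hU, hαU⟩ := hα
    obtain ⟨J, hJ, ε, hε, h⟩ := hW U hU α hαU
    exact ⟨J, hJ, ε, hε, fun α' hcl => ⟨U, hU, h α' hcl⟩⟩

/-- The skew product `T_α(x, y) = (Tx, α(x)y)`. -/
def skew {μ : Measure X} {ν : Measure Y} (T : PreAut μ) (α : PreCoc X ν) (z : X × Y) : X × Y :=
  (T.1 z.1, (α.1 z.1).1 z.2)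

end

/-! ### proof -/

open Pool.H359R3.MX

theorem mult_to_mix {Z : Type*} [MeasurableSpace Z] (m : Measure Z) (S : Z ≃ᵐ Z) (h : MultMix m S) (k : ℕ)
    (hk : 2 ≤ k) : MixS true k m S := by
  intro A hA
  rw [Metric.tendsto_nhds]
  intro ε hε
  obtain ⟨M, hM⟩ := h k hk A hA ε hε
  filter_upwards [eventually_ge_atTop (fun _ : Fin k => M)] with n hn
  have h1 := hM (fun j => ps n j) (ps_zero n) (fun i => by
    show ps n i.castSucc + M ≤ ps n i.succ
    rw [ps_succ]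
    have : M ≤ n i := hn i
    omega)
  rw [Real.dist_eq]
  exact h1

theorem mix_to_mult {Z : Type*} [MeasurableSpace Z] (m : Measure Z) (S : Z ≃ᵐ Z)
    (h : ∀ k, 2 ≤ k → MixS true k m S) : MultMix m S := by
  intro k hk A hA ε hε
  have h1 := (Metric.tendsto_nhds.1 (h k hk A hA)) ε hε
  obtain ⟨n0, hn0⟩ := eventually_atTop.1 h1
  refine ⟨∑ i, n0 i, fun N hN0 hN => ?_⟩
  have h2 := hn0 (fun i : Fin k => N i.succ - N i.castSucc) (fun i => by
    have h3 : n0 i ≤ ∑ i, n0 i := Finset.single_le_sum (fun i _ => Nat.zero_le _) (Finset.mem_univ i)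
    have h4 := hN i
    show n0 i ≤ N i.succ - N i.castSucc
    omega)
  rw [Real.dist_eq] at h2
  have h5 : ∀ j, ps (fun i : Fin k => N i.succ - N i.castSucc) j = N j := fun j =>
    ps_gaps N hN0 (fun i => by have := hN i; omega) j
  simp_rw [h5] at h2
  exact h2

section

variable {X Y : Type*} [MeasurableSpace X] [StandardBorelSpace X] [MeasurableSpace Y] [StandardBorelSpace Y]
variable (μ : Measure X) [IsProbabilityMeasure μ] (ν : Measure Y) [IsProbabilityMeasure ν]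

/-- closeness -/
def Cl (J : Finset (Set Y)) (ε : ℝ) (α α' : PreCoc X ν) : Prop := ∀ D ∈ J, μ.real (far α α' D ε) < ε

/-- the fibre maps -/
def fm {ν : Measure Y} (α : PreCoc X ν) (x : X) : Y ≃ᵐ Y := (α.1 x).1

theorem far_left (α β α' : PreCoc X ν) (h : cls μ α = cls μ β) (D : Set Y) (ε : ℝ) :
    μ.real (far α α' D ε) = μ.real (far β α' D ε) := by
  have h1 : ∀ᵐ x ∂μ, ∀ᵐ y ∂ν, (α.1 x).1 y = (β.1 x).1 y := Quotient.exact h
  apply measureReal_congr
  filter_upwards [h1] with x hx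
  apply propext
  show ε ≤ ν.real (((α'.1 x).1 '' D) ∆ ((α.1 x).1 '' D)) ↔ ε ≤ ν.real (((α'.1 x).1 '' D) ∆ ((β.1 x).1 '' D))
  have h2 : ν.real (((α'.1 x).1 '' D) ∆ ((α.1 x).1 '' D)) = ν.real (((α'.1 x).1 '' D) ∆ ((β.1 x).1 '' D)) :=
    measureReal_congr ((ae_eq_refl _).symmDiff (img_ae ν (α.1 x).1 (β.1 x).1 (α.1 x).2 hx D))
  rw [h2]

theorem far_right (α β α' : PreCoc X ν) (h : cls μ α = cls μ β) (D : Set Y) (ε : ℝ) :
    μ.real (far α' α D ε) = μ.real (far α' β D ε) := by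
  have h1 : ∀ᵐ x ∂μ, ∀ᵐ y ∂ν, (α.1 x).1 y = (β.1 x).1 y := Quotient.exact h
  apply measureReal_congr
  filter_upwards [h1] with x hx
  apply propext
  show ε ≤ ν.real (((α.1 x).1 '' D) ∆ ((α'.1 x).1 '' D)) ↔ ε ≤ ν.real (((β.1 x).1 '' D) ∆ ((α'.1 x).1 '' D))
  have h2 : ν.real (((α.1 x).1 '' D) ∆ ((α'.1 x).1 '' D)) = ν.real (((β.1 x).1 '' D) ∆ ((α'.1 x).1 '' D)) :=
    measureReal_congr ((img_ae ν (α.1 x).1 (β.1 x).1 (α.1 x).2 hx D).symmDiff (ae_eq_refl _))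
  rw [h2]

theorem Cl_tri (J : Finset (Set Y)) (ε : ℝ) (α α' α'' : PreCoc X ν) (h1 : Cl μ ν J (ε / 2) α α')
    (h2 : Cl μ ν J (ε / 2) α' α'') : Cl μ ν J ε α α'' := by
  intro D hD
  have h3 := h1 D hD
  have h4 := h2 D hD
  have h5 : far α α'' D ε ⊆ far α α' D (ε / 2) ∪ far α' α'' D (ε / 2) := by
    intro x hx
    by_contra hc
    rw [mem_union, not_or] at hc
    have e1 : ν.real (((α'.1 x).1 '' D) ∆ ((α.1 x).1 '' D)) < ε / 2 := not_le.1 hc.1
    have e2 : ν.real (((α''.1 x).1 '' D) ∆ ((α'.1 x).1 '' D)) < ε / 2 := not_le.1 hc.2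
    have e3 : ε ≤ ν.real (((α''.1 x).1 '' D) ∆ ((α.1 x).1 '' D)) := hx
    have e4 := diff_tri ν ((α''.1 x).1 '' D) ((α'.1 x).1 '' D) ((α.1 x).1 '' D)
    linarith
  have h6 := le_trans (measureReal_mono h5 (measure_ne_top μ _)) (measureReal_union_le _ _)
  linarith

/-- inner part of a set -/
def Ui (P : Set (Coc μ ν)) : Set (Coc μ ν) :=
  {q | ∀ α : PreCoc X ν, cls μ α = q → ∃ J : Finset (Set Y), (∀ D ∈ J, MeasurableSet D) ∧ ∃ ε : ℝ, 0 < ε ∧
    ∀ α' : PreCoc X ν, Cl μ ν J ε α α' → cls μ α' ∈ P}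

theorem Ui_open (P : Set (Coc μ ν)) : IsOpen (Ui μ ν P) := by
  intro α hα
  obtain ⟨J, hJ, ε, hε, h⟩ := hα α rfl
  refine ⟨J, hJ, ε / 2, by positivity, fun α' hcl => ?_⟩
  intro β hβ
  refine ⟨J, hJ, ε / 2, by positivity, fun β' hcl' => ?_⟩
  apply h
  refine Cl_tri μ ν J ε α α' β' hcl (fun D hD => ?_)
  rw [← far_left μ ν β α' β' hβ]
  exact hcl' D hD

theorem Ui_sub (P : Set (Coc μ ν)) : Ui μ ν P ⊆ P := by
  intro q hq
  obtain ⟨α, hα⟩ := Quotient.exists_rep q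
  obtain ⟨J, hJ, ε, hε, h⟩ := hq α hα
  have h1 : cls μ α = q := hα
  rw [← h1]
  apply h
  intro D _
  have : far α α D ε = ∅ := by
    ext x
    simp only [mem_empty_iff_false, iff_false]
    intro hx
    have hx' : ε ≤ ν.real (((α.1 x).1 '' D) ∆ ((α.1 x).1 '' D)) := hx
    rw [symmDiff_self] at hx'
    have : ν.real (⊥ : Set Y) = 0 := measureReal_empty
    linarith
  rw [this, measureReal_empty]
  exact hε

theorem Ui_mem (P : Set (Coc μ ν)) (α0 : PreCoc X ν) (J : Finset (Set Y)) (hJ : ∀ D ∈ J, MeasurableSet D) (ε : ℝ)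
    (hε : 0 < ε) (h : ∀ α' : PreCoc X ν, Cl μ ν J ε α0 α' → cls μ α' ∈ P) : cls μ α0 ∈ Ui μ ν P := by
  intro β hβ
  refine ⟨J, hJ, ε, hε, fun α' hcl => h α' (fun D hD => ?_)⟩
  rw [← far_left μ ν β α0 α' hβ]
  exact hcl D hD

theorem comb (s : Set (Set (X × Y))) (hs : s.Finite) (Q : Set (X × Y) → PreCoc X ν → Prop) (β : PreCoc X ν)
    (h : ∀ F ∈ s, ∃ J : Finset (Set Y), (∀ D ∈ J, MeasurableSet D) ∧ ∃ ε : ℝ, 0 < ε ∧
      ∀ α' : PreCoc X ν, Cl μ ν J ε β α' → Q F α') :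
    ∃ J : Finset (Set Y), (∀ D ∈ J, MeasurableSet D) ∧ ∃ ε : ℝ, 0 < ε ∧
      ∀ α' : PreCoc X ν, Cl μ ν J ε β α' → ∀ F ∈ s, Q F α' := by
  classical
  induction s, hs using Set.Finite.induction_on with
  | empty => exact ⟨∅, by simp, 1, one_pos, fun _ _ _ hF => absurd hF (notMem_empty _)⟩
  | insert ha hs ih =>
    rename_i a t
    obtain ⟨J1, hJ1, ε1, hε1, h1⟩ := ih (fun F hF => h F (mem_insert_of_mem _ hF))
    obtain ⟨J2, hJ2, ε2, hε2, h2⟩ := h a (mem_insert _ _)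
    refine ⟨J1 ∪ J2, fun A hA => ?_, min ε1 ε2, lt_min hε1 hε2, fun α' hcl F hF => ?_⟩
    · rcases Finset.mem_union.1 hA with h | h
      · exact hJ1 A h
      · exact hJ2 A h
    have c1 : Cl μ ν J1 ε1 β α' := fun D hD => by
      refine lt_of_le_of_lt (measureReal_mono (fun x hx => ?_) (measure_ne_top _ _))
        (lt_of_lt_of_le (hcl D (Finset.mem_union_left _ hD)) (min_le_left _ _))
      exact le_trans (min_le_left ε1 ε2) (show ε1 ≤ ν.real (((α'.1 x).1 '' D) ∆ ((β.1 x).1 '' D)) from hx)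
    have c2 : Cl μ ν J2 ε2 β α' := fun D hD => by
      refine lt_of_le_of_lt (measureReal_mono (fun x hx => ?_) (measure_ne_top _ _))
        (lt_of_lt_of_le (hcl D (Finset.mem_union_right _ hD)) (min_le_right _ _))
      exact le_trans (min_le_right ε1 ε2) (show ε2 ≤ ν.real (((α'.1 x).1 '' D) ∆ ((β.1 x).1 '' D)) from hx)
    rcases hF with rfl | hF
    · exact h2 α' c2
    · exact h1 α' c1 F hF

theorem residual_k [NullSingletonClass μ] [NullSingletonClass ν] (T : PreAut μ) (k : ℕ) (hk : 1 ≤ k)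
    (hT : MixS true k μ T.1) :
    {q : Coc μ ν | ∀ α : PreCoc X ν, cls μ α = q → MixS true k (μ.prod ν) (SE T.1 (fm α) α.2)} ∈
      residual (Coc μ ν) := by
  classical
  have hCD := CD_gen μ ν T.1 T.2 true k hk hT
  obtain ⟨D, hDm, hDd⟩ := exists_D (μ.prod ν)
  have hext : ∀ α : PreCoc X ν, IsExt μ ν T.1 (SE T.1 (fm α) α.2) := fun α =>
    SE_ext μ ν T.1 T.2 (fm α) α.2 (fun x => (α.1 x).2)
  let P : (Fin (k + 1) → ℕ) × ℕ → Set (Coc μ ν) := fun i =>
    {q | ∃ n0 : Fin k → ℕ, ∀ α : PreCoc X ν, cls μ α = q → ∀ n ≥ n0,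
      |(μ.prod ν).real (⋂ j, ((pw true (SE T.1 (fm α) α.2) : X × Y → X × Y)^[ps n j]) ⁻¹' D (i.1 j)) -
        ∏ j, (μ.prod ν).real (D (i.1 j))| ≤ 1 / ((i.2 : ℝ) + 1)}
  have hsub : (⋂ i, P i) ⊆
      {q : Coc μ ν | ∀ α : PreCoc X ν, cls μ α = q → MixS true k (μ.prod ν) (SE T.1 (fm α) α.2)} := by
    intro q hq α hα
    refine mix_of_dense (μ.prod ν) _ (hext α).1 true k D hDm hDd (fun f p => ?_)
    obtain ⟨n0, hn0⟩ := mem_iInter.1 hq (f, p)
    exact ⟨n0, hn0 α hα⟩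
  refine Filter.mem_of_superset (residual_of P ?_) hsub
  rintro ⟨f, p⟩ O hO ⟨q, hq⟩
  obtain ⟨α, hα⟩ := Quotient.exists_rep q
  have hαq : cls μ α = q := hα
  obtain ⟨J, hJ, ε, hε, hJO⟩ := hO α (by rw [hαq]; exact hq)
  set S := SE T.1 (fm α) α.2 with hS
  let A : Fin J.card → Set Y := fun i => (J.equivFin.symm i).1
  have hA : ∀ i, MeasurableSet (A i) := fun i => hJ _ (J.equivFin.symm i).2
  obtain ⟨S0, hS0, hskew, hclose, J', hJ'f, hJ'm, δ', hδ', n0, hopen⟩ := hCD S (hext α) J.card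
    (fun i => S '' (univ ×ˢ A i)) (fun i => S.measurableSet_image.2 (MeasurableSet.univ.prod (hA i))) (ε ^ 2)
    (by positivity) (fun j => D (f j)) (fun j => hDm _) (1 / ((p : ℝ) + 1)) (by positivity)
  obtain ⟨Φ, hΦ1, hΦ2, hΦ3⟩ := hskew
  let β : PreCoc X ν := ⟨fun x => ⟨Φ x, hΦ1 x⟩, hΦ2⟩
  have hS0β : SE T.1 (fm β) β.2 = S0 := by
    apply MeasurableEquiv.ext
    funext z
    rw [hΦ3]
    rfl
  have hβO : cls μ β ∈ O := by
    apply hJO
    intro B hB
    have h1 := hclose (J.equivFin ⟨B, hB⟩)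
    have h2 : A (J.equivFin ⟨B, hB⟩) = B := by
      show (J.equivFin.symm (J.equivFin ⟨B, hB⟩)).1 = B
      rw [Equiv.symm_apply_apply]
    rw [h2, img_pre (μ.prod ν) S S0 (hext α).1 hS0.1 _ (MeasurableSet.univ.prod (hJ B hB)), ← hS0β] at h1
    have h3 := W_ge μ ν T.1 T.2 (fm α) (fm β) α.2 β.2 B (hJ B hB) ε
    have h4 : ε * μ.real (far α β B ε) < ε * ε := by
      calc ε * μ.real (far α β B ε) ≤ _ := h3
        _ < ε ^ 2 := h1
        _ = ε * ε := by ring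
    exact lt_of_mul_lt_mul_left h4 hε.le
  -- an open neighbourhood inside the good set
  obtain ⟨J2, hJ2, ε2, hε2, h2⟩ := comb μ ν J' hJ'f
    (fun F α' => (μ.prod ν).real ((SE T.1 (fm α') α'.2 '' (S0 ⁻¹' F)) ∆ (S0 '' (S0 ⁻¹' F))) < δ') β (fun F hF => by
      obtain ⟨J3, hJ3, ε3, hε3, h3⟩ := img_cont μ ν T.1 T.2 (fm β) β.2 (fun x => (β.1 x).2) (S0 ⁻¹' F)
        (S0.measurable (hJ'm F hF)) δ' hδ'
      refine ⟨J3, hJ3, ε3, hε3, fun α' hcl => ?_⟩
      have h4 := h3 (fm α') α'.2 (fun x => (α'.1 x).2) hcl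
      rw [hS0β] at h4
      exact h4)
  refine ⟨Ui μ ν (P (f, p)), Ui_open μ ν _, ⟨cls μ β, hβO, Ui_mem μ ν _ β J2 hJ2 ε2 hε2 (fun α' hcl => ?_)⟩, Ui_sub μ ν _⟩
  refine ⟨n0, fun γ hγ n hn => ?_⟩
  refine hopen (SE T.1 (fm γ) γ.2) (hext γ) (fun F hF => ?_) n hn
  have hcl' : Cl μ ν J2 ε2 β γ := fun D hD => by
    rw [far_right μ ν γ α' β hγ]
    exact hcl D hD
  have h5 := h2 γ hcl' F hF
  rw [img_pre' (μ.prod ν) S0 _ hS0.1 (hext γ).1 F (hJ'm F hF)]
  exact h5.le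

end

/-- **Theorem.** Let `(X, μ)`, `(Y, ν)` be nonatomic standard probability spaces and `T` a multiply
mixing automorphism of `(X, μ)`. Then for all `α` in a comeagre subset of the space of cocycles
`X → Aut(Y, ν)` with convergence in measure, the extension `T_α` is multiply mixing. -/
theorem result {X Y : Type*} [MeasurableSpace X] [StandardBorelSpace X] [MeasurableSpace Y]
    [StandardBorelSpace Y] (μ : Measure X) [IsProbabilityMeasure μ] [NullSingletonClass μ]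
    (ν : Measure Y) [IsProbabilityMeasure ν] [NullSingletonClass ν] (T : PreAut μ) (hT : MultMix μ T.1) :
    {q : Coc μ ν | ∀ α : PreCoc X ν, cls μ α = q → MultMix (μ.prod ν) (skew T α)} ∈ residual (Coc μ ν) := by
  have h1 : ∀ k : ℕ, {q : Coc μ ν | ∀ α : PreCoc X ν, cls μ α = q →
      MixS true (k + 2) (μ.prod ν) (SE T.1 (fm α) α.2)} ∈ residual (Coc μ ν) := fun k =>
    residual_k μ ν T (k + 2) (by omega) (mult_to_mix μ T.1 hT (k + 2) (by omega))
  refine Filter.mem_of_superset (countable_iInter_mem.2 h1) ?_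
  intro q hq α hα
  have h2 : MultMix (μ.prod ν) (SE T.1 (fm α) α.2) := by
    apply mix_to_mult
    intro k hk
    obtain ⟨k', rfl⟩ : ∃ k', k = k' + 2 := ⟨k - 2, by omega⟩
    exact mem_iInter.1 hq k' α hα
  exact h2

end Pool.Agent.Results.MP_7561b1_an.GenericMultipleMixing
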